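import Mathlib
import Pool.Agent.N718.DC.Stm3

/-!
# Constant suitable signs on finitely many intervals (part REAL4; helper42)

`gen` is the general theorem for families of binary forms and an arbitrary set of sign patterns.
-/

set_option autoImplicit false
set_option linter.all false

namespace Pool.Agent.N42.DQ

open Finset Pool.Agent.N718.DC

/-- `G` is a set of vectors with nonzero coordinates which depends only on the signs. -/
structure Pat {ι : Type} (G : (ι → ℝ) → Prop) : Prop where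
  ne : ∀ v, G v → ∀ k, v k ≠ 0
  sg : ∀ v w, G v → (∀ k, 0 < v k * w k) → G w

section gen

variable {ι : Type} [Fintype ι] [DecidableEq ι] (e : ι → ℕ)

/-- the index type of the coefficients -/
abbrev Ka : Type := Σ k : ι, Fin (e k + 2)

/-- the values of the forms at `(1, z)` -/
noncomputable def vl (c : Ka e → ℝ) (z : ℝ) (k : ι) : ℝ :=
  ∑ j : Fin (e k + 2), c ⟨k, j⟩ * z ^ (j : ℕ)

theorem vl_smul (l : ℝ) (c : Ka e → ℝ) (z : ℝ) (k : ι) :
    vl e (l • c) z k = l * vl e c z k := by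
  unfold vl
  rw [mul_sum]
  exact sum_congr rfl fun j _ => by rw [Pi.smul_apply, smul_eq_mul, mul_assoc]

theorem vl_update_ne (c : Ka e → ℝ) (p : Ka e) (τ z : ℝ) (k : ι) (h : k ≠ p.1) :
    vl e (Function.update c p τ) z k = vl e c z k := by
  unfold vl
  refine sum_congr rfl fun j _ => ?_
  rw [Function.update_of_ne]
  rintro rfl
  exact h rfl

theorem vl_update_self (c : Ka e → ℝ) (p : Ka e) (τ z : ℝ) :
    vl e (Function.update c p τ) z p.1 =
      vl e (Function.update c p 0) z p.1 + τ * z ^ (p.2 : ℕ) := by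
  obtain ⟨k, j⟩ := p
  unfold vl
  rw [← Finset.add_sum_erase univ _ (mem_univ j), ← Finset.add_sum_erase univ
    (fun j' : Fin (e k + 2) => Function.update c ⟨k, j⟩ 0 ⟨k, j'⟩ * z ^ (j' : ℕ)) (mem_univ j)]
  have h1 : ∑ j' ∈ univ.erase j, Function.update c ⟨k, j⟩ τ ⟨k, j'⟩ * z ^ (j' : ℕ) =
      ∑ j' ∈ univ.erase j, Function.update c ⟨k, j⟩ 0 ⟨k, j'⟩ * z ^ (j' : ℕ) := by
    refine sum_congr rfl fun j' hj' => ?_
    have h2 : (⟨k, j'⟩ : Ka e) ≠ ⟨k, j⟩ := by
      intro h3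
      have h4 : j' = j := by
        have := Sigma.mk.inj h3
        exact eq_of_heq this.2
      exact (mem_erase.1 hj').1 h4
    rw [Function.update_of_ne h2, Function.update_of_ne h2]
  show Function.update c ⟨k, j⟩ τ ⟨k, j⟩ * z ^ (j : ℕ) + _ =
    Function.update c ⟨k, j⟩ 0 ⟨k, j⟩ * z ^ (j : ℕ) + _ + τ * z ^ (j : ℕ)
  rw [h1, Function.update_self, Function.update_self]
  ring

/-- the families without a suitable point in `Y` -/
def NS (G : (ι → ℝ) → Prop) (Y : Set ℝ) : Set (Ka e → ℝ) := {c | ∀ z ∈ Y, ¬ G (vl e c z)}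

variable {e} {G : (ι → ℝ) → Prop}

theorem ns_cone (hG : Pat G) (Y : Set ℝ) : ∀ c ∈ NS e G Y, ∀ l : ℝ, 0 < l → l • c ∈ NS e G Y := by
  intro c hc l hl z hz h
  refine hc z hz (hG.sg _ _ h fun k => ?_)
  have h1 : vl e c z k ≠ 0 := by
    have h2 := hG.ne _ h k
    rw [vl_smul] at h2
    exact right_ne_zero_of_mul h2
  rw [vl_smul, mul_assoc]
  exact mul_pos hl (mul_self_pos.2 h1)

/-- the sections of the complement of a set of sign patterns are intervals -/
theorem pat_oc (hG : Pat G) (v : ι → ℝ) (k : ι) :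
    {t : ℝ | ¬ G (Function.update v k t)}.OrdConnected := by
  have key : ∀ t t' : ℝ, 0 < t * t' → G (Function.update v k t) → G (Function.update v k t') := by
    intro t t' htt h
    refine hG.sg _ _ h fun k' => ?_
    by_cases hk : k' = k
    · subst hk
      rw [Function.update_self, Function.update_self]
      exact htt
    · have h1 := hG.ne _ h k'
      rw [Function.update_of_ne hk] at h1 ⊢
      rw [Function.update_of_ne hk]
      exact mul_self_pos.2 h1
  rw [Set.ordConnected_iff]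
  intro x hx y hy hxy t ht hGt
  have ht0 : t ≠ 0 := by
    have h1 := hG.ne _ hGt k
    rwa [Function.update_self] at h1
  rcases lt_or_gt_of_ne ht0 with h | h
  · exact hx (key t x (mul_pos_of_neg_of_neg h (ht.1.trans_lt h)) hGt)
  · exact hy (key t y (mul_pos h (h.trans_le ht.2)) hGt)

theorem ns_oc (hG : Pat G) (Y : Set ℝ) (c : Ka e → ℝ) (p : Ka e) :
    {τ : ℝ | Function.update c p τ ∈ NS e G Y}.OrdConnected := by
  have h1 : {τ : ℝ | Function.update c p τ ∈ NS e G Y} = ⋂ z ∈ Y,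
      (fun τ : ℝ => vl e (Function.update c p 0) z p.1 + τ * z ^ (p.2 : ℕ)) ⁻¹'
        {t : ℝ | ¬ G (Function.update (vl e c z) p.1 t)} := by
    ext τ
    simp only [Set.mem_iInter, Set.mem_preimage, Set.mem_setOf_eq, NS]
    refine forall₂_congr fun z _ => ?_
    have h2 : vl e (Function.update c p τ) z = Function.update (vl e c z) p.1
        (vl e (Function.update c p 0) z p.1 + τ * z ^ (p.2 : ℕ)) := by
      funext k
      by_cases hk : k = p.1
      · subst hk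
        rw [Function.update_self, vl_update_self]
      · rw [Function.update_of_ne hk, vl_update_ne e c p τ z k hk]
    rw [h2]
  rw [h1]
  refine Set.ordConnected_iInter fun z => Set.ordConnected_iInter fun _ => ?_
  rcases le_total 0 (z ^ (p.2 : ℕ)) with h | h
  · refine (pat_oc hG _ _).preimage_mono fun a b hab => ?_
    exact add_le_add_right (mul_le_mul_of_nonneg_right hab h) _
  · refine (pat_oc hG _ _).preimage_anti fun a b hab => ?_
    exact add_le_add_right (mul_le_mul_of_nonpos_right hab h) _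

theorem count_int (A B : ℝ) (hB : 0 ≤ B) :
    ((Finset.Icc ⌈-B - A⌉ ⌊B - A⌋).card : ℝ) ≤ 2 * B + 1 := by
  rw [Int.card_Icc]
  have h1 : (⌊B - A⌋ : ℝ) ≤ B - A := Int.floor_le _
  have h2 : -B - A ≤ (⌈-B - A⌉ : ℝ) := Int.le_ceil _
  rcases le_or_gt 0 (⌊B - A⌋ + 1 - ⌈-B - A⌉) with h | h
  · have h3 : (((⌊B - A⌋ + 1 - ⌈-B - A⌉).toNat : ℕ) : ℝ) =
        ((⌊B - A⌋ + 1 - ⌈-B - A⌉ : ℤ) : ℝ) := by
      have h4 := Int.toNat_of_nonneg h
      exact_mod_cast congrArg (fun n : ℤ => (n : ℝ)) h4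
    rw [h3]
    push_cast
    linarith
  · rw [Int.toNat_of_nonpos h.le]
    push_cast
    linarith

open Classical in
theorem card_small (H : ℕ) (z δ : ℝ) (hδ : 0 ≤ δ) (k : ι) :
    (((Fintype.piFinset (fun _ : Ka e => Icc (-(H : ℤ)) H)).filter
      (fun c => |vl e (fun p => (c p : ℝ)) z k| ≤ δ * H)).card : ℝ) ≤
      (2 * (δ * H) + 1) * ((2 * H + 1 : ℕ) : ℝ) ^ (Fintype.card (Ka e) - 1) := by
  obtain ⟨p, hp⟩ : ∃ p : Ka e, p = ⟨k, 0⟩ := ⟨_, rfl⟩
  have hp1 : p.1 = k := by rw [hp]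
  have hp2 : (p.2 : ℕ) = 0 := by rw [hp]; rfl
  have hB : 0 ≤ δ * H := mul_nonneg hδ (Nat.cast_nonneg _)
  obtain ⟨E, hE⟩ : ∃ E, E = (Fintype.piFinset (fun _ : Ka e => Icc (-(H : ℤ)) H)).filter
      (fun c => |vl e (fun p => (c p : ℝ)) z k| ≤ δ * H) := ⟨_, rfl⟩
  rw [← hE]
  have hEm : ∀ c, c ∈ E ↔ (∀ q, c q ∈ Icc (-(H : ℤ)) H) ∧
      |vl e (fun p => (c p : ℝ)) z k| ≤ δ * H := by
    intro c
    rw [hE, mem_filter, Fintype.mem_piFinset]
  -- the fibres
  have hfib : ∀ a ∈ E.image (fun c => Function.update c p 0),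
      (E.filter (fun c => Function.update c p 0 = a)).card ≤ ⌊2 * (δ * H) + 1⌋₊ := by
    intro a _
    obtain ⟨A, hA⟩ : ∃ A : ℝ, A = vl e (fun p => (a p : ℝ)) z k := ⟨_, rfl⟩
    have h1 : (E.filter (fun c => Function.update c p 0 = a)).card ≤
        (Finset.Icc ⌈-(δ * H) - A⌉ ⌊δ * H - A⌋).card := by
      refine Finset.card_le_card_of_injOn (fun c => c p) ?_ ?_
      · intro c hc
        have hc' := Finset.mem_filter.1 (Finset.mem_coe.1 hc)
        have h2 := ((hEm c).1 hc'.1).2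
        have h3 : vl e (fun p => (c p : ℝ)) z k = A + c p := by
          have h4 := vl_update_self e (fun p => (c p : ℝ)) p (c p : ℝ) z
          rw [Function.update_eq_self, hp2, pow_zero, mul_one, hp1] at h4
          rw [h4, hA]
          congr 2
          funext q
          rw [← hc'.2]
          by_cases hq : q = p
          · subst hq
            rw [Function.update_self, Function.update_self]
            norm_num
          · rw [Function.update_of_ne hq, Function.update_of_ne hq]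
        rw [h3, abs_le] at h2
        refine Finset.mem_coe.2 (Finset.mem_Icc.2 ⟨?_, ?_⟩)
        · exact Int.ceil_le.2 (by linarith [h2.1])
        · exact Int.le_floor.2 (by linarith [h2.2])
      · intro c hc c' hc' hcc
        have h2 := (Finset.mem_filter.1 (Finset.mem_coe.1 hc)).2
        have h3 := (Finset.mem_filter.1 (Finset.mem_coe.1 hc')).2
        funext q
        by_cases hq : q = p
        · subst hq
          exact hcc
        · have h4 := congrFun (h2.trans h3.symm) q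
          rwa [Function.update_of_ne hq, Function.update_of_ne hq] at h4
    refine h1.trans (Nat.le_floor ?_)
    exact count_int A (δ * H) hB
  have h1 := Finset.card_le_mul_card_image (s := E) ⌊2 * (δ * H) + 1⌋₊ hfib
  -- the image
  have himg : (E.image (fun c => Function.update c p 0)).card ≤
      (2 * H + 1) ^ (Fintype.card (Ka e) - 1) := by
    have h2 : E.image (fun c => Function.update c p 0) ⊆
        Fintype.piFinset (fun q : Ka e => if q = p then ({0} : Finset ℤ) else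
          Icc (-(H : ℤ)) H) := by
      intro a ha
      obtain ⟨c, hc, rfl⟩ := Finset.mem_image.1 ha
      rw [Fintype.mem_piFinset]
      intro q
      by_cases hq : q = p
      · subst hq
        rw [if_pos rfl, Function.update_self]
        exact mem_singleton_self _
      · rw [if_neg hq, Function.update_of_ne hq]
        exact ((hEm c).1 hc).1 q
    refine (Finset.card_le_card h2).trans ?_
    rw [Fintype.card_piFinset, ← Finset.mul_prod_erase univ _ (mem_univ p)]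
    rw [if_pos rfl, card_singleton, one_mul]
    have h3 : ∀ q ∈ univ.erase p, (if q = p then ({0} : Finset ℤ) else
        Icc (-(H : ℤ)) H).card = 2 * H + 1 := by
      intro q hq
      rw [if_neg (mem_erase.1 hq).1, Int.card_Icc]
      omega
    rw [Finset.prod_congr rfl h3, prod_const, card_erase_of_mem (mem_univ p), card_univ]
  have h2 : (E.card : ℝ) ≤ ((⌊2 * (δ * H) + 1⌋₊ * (2 * H + 1) ^ (Fintype.card (Ka e) - 1) : ℕ) : ℝ) :=
    Nat.cast_le.2 (h1.trans (Nat.mul_le_mul_left _ himg))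
  refine h2.trans ?_
  push_cast
  refine mul_le_mul_of_nonneg_right (Nat.floor_le (by linarith)) (by positivity)

/-- the values of a family with integral coefficients -/
theorem vl_int (c : (k : ι) → Fin (e k + 2) → ℤ) (z : ℝ) (k : ι) :
    vl e (fun p : Ka e => ((c p.1 p.2 : ℤ) : ℝ)) z k = fmv (c k) 1 z := by
  unfold vl fmv fm
  exact sum_congr rfl fun j _ => by rw [one_pow, mul_one]

theorem card_ka : Fintype.card (Ka e) = ncI e := by
  rw [Fintype.card_sigma]
  unfold ncI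
  exact sum_congr rfl fun k _ => Fintype.card_fin _

/-- a short interval on which all monomials are almost constant -/
theorem exists_rho (e : ι → ℕ) {U : Set ℝ} (hU : IsOpen U) {δ : ℝ} (hδ : 0 < δ) {z : ℝ}
    (hz : z ∈ U) : ∃ ρ : ℝ, 0 < ρ ∧ Set.Icc (z - ρ) (z + ρ) ⊆ U ∧
      ∀ z' ∈ Set.Icc (z - ρ) (z + ρ), ∀ k, ∑ j : Fin (e k + 2), |z' ^ (j : ℕ) - z ^ (j : ℕ)| ≤ δ := by
  have h1 : ∀ k, ∀ᶠ z' in nhds z, ∑ j : Fin (e k + 2), |z' ^ (j : ℕ) - z ^ (j : ℕ)| < δ := by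
    intro k
    have hc : Continuous fun z' : ℝ => ∑ j : Fin (e k + 2), |z' ^ (j : ℕ) - z ^ (j : ℕ)| := by
      fun_prop
    refine hc.continuousAt.eventually_lt continuousAt_const ?_
    simpa using hδ
  have h2 : ∀ᶠ z' in nhds z, z' ∈ U ∧
      ∀ k, ∑ j : Fin (e k + 2), |z' ^ (j : ℕ) - z ^ (j : ℕ)| < δ :=
    Filter.Eventually.and (hU.eventually_mem hz) (Filter.eventually_all.2 h1)
  obtain ⟨ε, hε, h3⟩ := Metric.eventually_nhds_iff.1 h2
  have h4 : ∀ z' ∈ Set.Icc (z - ε / 2) (z + ε / 2), dist z' z < ε := by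
    intro z' hz'
    rw [Real.dist_eq, abs_lt]
    constructor <;> linarith [hz'.1, hz'.2]
  exact ⟨ε / 2, by linarith, fun z' hz' => (h3 (h4 z' hz')).1,
    fun z' hz' k => ((h3 (h4 z' hz')).2 k).le⟩

open Classical in
/-- **The general theorem.** -/
theorem gen (hO : S_ORTHO) (e : ι → ℕ) (G : (ι → ℝ) → Prop) (hG : Pat G) (U : Set ℝ)
    (hU : IsOpen U) (η : ℝ) (hη : 0 < η) :
    ∃ (Z : Finset (ℝ × ℝ)) (H₀ : ℕ), (∀ w ∈ Z, w.1 < w.2 ∧ Set.Icc w.1 w.2 ⊆ U) ∧
      ∀ H : ℕ, H₀ ≤ H →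
      (((BXI e H).filter (fun c => (∃ z ∈ U, G fun k => fmv (c k) 1 z) ∧
        ¬ ∃ w ∈ Z, ∃ s : ι → ℤ, (∀ k, s k = 1 ∨ s k = -1) ∧ (G fun k => (s k : ℝ)) ∧
          ∀ k, ∀ z : ℝ, w.1 < z → z < w.2 → 0 < (s k : ℝ) * fmv (c k) 1 z)).card : ℝ) ≤
        η * ((2 * H + 1 : ℕ) : ℝ) ^ ncI e := by
  obtain ⟨C, hC0, hC⟩ := hO (Ka e)
  obtain ⟨H₁, hH₁⟩ : ∃ H₁ : ℕ, H₁ = ⌈4 * C / η⌉₊ + 1 := ⟨_, rfl⟩
  have hH₁1 : 1 ≤ H₁ := by omega
  have hH₁r : 4 * C / η ≤ H₁ := by
    rw [hH₁]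
    push_cast
    exact (Nat.le_ceil _).trans (by linarith)
  have hH₁p : (0 : ℝ) < H₁ := by exact_mod_cast hH₁1
  have hCH : 2 * (C / H₁) ≤ η / 2 := by
    have h1 : 4 * C ≤ H₁ * η := (div_le_iff₀ hη).1 hH₁r
    have h2 : C / H₁ ≤ η / 4 := by
      rw [div_le_iff₀ hH₁p]
      linarith
    linarith
  -- the box
  obtain ⟨Bx, hBx⟩ : ∃ Bx : ℕ → Finset (Ka e → ℤ),
      Bx = fun H : ℕ => Fintype.piFinset (fun _ : Ka e => Icc (-(H : ℤ)) (H : ℤ)) := ⟨_, rfl⟩
  have hex : ∀ c : Ka e → ℤ, ∃ z : ℝ, (∃ z ∈ U, G (vl e (fun p => (c p : ℝ)) z)) →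
      z ∈ U ∧ G (vl e (fun p => (c p : ℝ)) z) := by
    intro c
    by_cases h : ∃ z ∈ U, G (vl e (fun p => (c p : ℝ)) z)
    · obtain ⟨z, hz, hGz⟩ := h
      exact ⟨z, fun _ => ⟨hz, hGz⟩⟩
    · exact ⟨0, fun h' => absurd h' h⟩
  choose wt hwt using hex
  obtain ⟨Y, hY⟩ : ∃ Y : Finset ℝ,
      Y = ((Bx H₁).filter (fun c => ∃ z ∈ U, G (vl e (fun p => (c p : ℝ)) z))).image wt := ⟨_, rfl⟩
  have hYU : ∀ z ∈ Y, z ∈ U := by
    intro z hz
    rw [hY, mem_image] at hz
    obtain ⟨c, hc, rfl⟩ := hz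
    exact (hwt c (mem_filter.1 hc).2).1
  obtain ⟨N, hN⟩ : ∃ N : Set (Ka e → ℝ) → ℕ → ℝ, N = fun S H =>
      (((Bx H).filter (fun c => (fun j => (c j : ℝ)) ∈ S)).card : ℝ) := ⟨_, rfl⟩
  have hNeq : N (NS e G Y) H₁ = N (NS e G U) H₁ := by
    rw [hN]
    show (((Bx H₁).filter _).card : ℝ) = (((Bx H₁).filter _).card : ℝ)
    congr 2
    refine filter_congr fun c hc => ⟨fun h => ?_, fun h => ?_⟩
    · intro z hz hGz
      have h1 := hwt c ⟨z, hz, hGz⟩
      refine h (wt c) ?_ h1.2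
      rw [hY]
      exact Finset.mem_coe.2 (mem_image_of_mem _ (mem_filter.2 ⟨hc, z, hz, hGz⟩))
    · exact fun z hz => h z (hYU z hz)
  have hdiff : ∀ H : ℕ, H₁ ≤ H → N (NS e G Y) H - N (NS e G U) H ≤
      η / 2 * ((2 * H + 1 : ℕ) : ℝ) ^ ncI e := by
    intro H hH
    have hp : (0 : ℝ) < ((2 * H + 1 : ℕ) : ℝ) ^ ncI e := by positivity
    have h1 := hC (NS e G Y) (ns_cone hG _) (ns_oc hG _) H₁ H hH₁1 hH
    have h2 := hC (NS e G U) (ns_cone hG _) (ns_oc hG _) H₁ H hH₁1 hH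
    have e1 : ∀ S : Set (Ka e → ℝ), ∀ H' : ℕ,
        (((Fintype.piFinset (fun _ : Ka e => Icc (-(H' : ℤ)) H')).filter
          (fun c => (fun j => (c j : ℝ)) ∈ S)).card : ℝ) = N S H' := by
      intro S H'
      rw [hN, hBx]
    rw [e1, e1, card_ka] at h1 h2
    rw [hNeq] at h1
    have h3 : N (NS e G Y) H / ((2 * H + 1 : ℕ) : ℝ) ^ ncI e -
        N (NS e G U) H / ((2 * H + 1 : ℕ) : ℝ) ^ ncI e ≤ η / 2 := by
      have h4 := (abs_le.1 h1).2
      have h5 := (abs_le.1 h2).1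
      linarith
    rw [← sub_div, div_le_iff₀ hp] at h3
    exact h3
  -- the parameter `δ`
  obtain ⟨D, hD⟩ : ∃ D : ℝ, D = (Y.card : ℝ) * Fintype.card ι + 1 := ⟨_, rfl⟩
  have hD1 : 1 ≤ D := by
    rw [hD]
    have : (0 : ℝ) ≤ (Y.card : ℝ) * Fintype.card ι := by positivity
    linarith
  have hD0 : 0 < D := by linarith
  obtain ⟨δ, hδ⟩ : ∃ δ : ℝ, δ = η / (4 * D) := ⟨_, rfl⟩
  have hδ0 : 0 < δ := by rw [hδ]; positivity
  have hDδ : D * δ = η / 4 := by rw [hδ]; field_simp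
  -- the intervals
  have hrho : ∀ z : ℝ, ∃ ρ : ℝ, z ∈ Y → 0 < ρ ∧ Set.Icc (z - ρ) (z + ρ) ⊆ U ∧
      ∀ z' ∈ Set.Icc (z - ρ) (z + ρ), ∀ k,
        ∑ j : Fin (e k + 2), |z' ^ (j : ℕ) - z ^ (j : ℕ)| ≤ δ := by
    intro z
    by_cases hz : z ∈ Y
    · obtain ⟨ρ, h⟩ := exists_rho e hU hδ0 (hYU z hz)
      exact ⟨ρ, fun _ => h⟩
    · exact ⟨0, fun h => absurd h hz⟩
  choose ρ hρ using hrho
  refine ⟨Y.image (fun z => (z - ρ z, z + ρ z)), max H₁ (⌈2 * D / η⌉₊ + 1), ?_, ?_⟩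
  · intro w hw
    obtain ⟨z, hz, rfl⟩ := mem_image.1 hw
    obtain ⟨h1, h2, -⟩ := hρ z hz
    exact ⟨by show z - ρ z < z + ρ z; linarith, h2⟩
  intro H hH
  have hHH₁ : H₁ ≤ H := (le_max_left _ _).trans hH
  have hHD : 2 * D / η ≤ H := by
    have h1 : ((⌈2 * D / η⌉₊ + 1 : ℕ) : ℝ) ≤ H := Nat.cast_le.2 ((le_max_right _ _).trans hH)
    push_cast at h1
    exact (Nat.le_ceil _).trans (by linarith)
  have hDH : D ≤ η / 2 * H := by
    have h1 := (div_le_iff₀ hη).1 hHD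
    linarith
  -- the exceptional sets
  obtain ⟨E₁, hE₁⟩ : ∃ E₁, E₁ = (Bx H).filter (fun c => (fun j => (c j : ℝ)) ∈ NS e G Y ∧
      ¬ (fun j => (c j : ℝ)) ∈ NS e G U) := ⟨_, rfl⟩
  obtain ⟨E₂, hE₂⟩ : ∃ E₂, E₂ = (Y ×ˢ (univ : Finset ι)).biUnion (fun q =>
      (Bx H).filter (fun c => |vl e (fun p => (c p : ℝ)) q.1 q.2| ≤ δ * H)) := ⟨_, rfl⟩
  have hE₁c : (E₁.card : ℝ) ≤ η / 2 * ((2 * H + 1 : ℕ) : ℝ) ^ ncI e := by
    refine le_trans ?_ (hdiff H hHH₁)
    have h1 : E₁.card + ((Bx H).filter (fun c => (fun j => (c j : ℝ)) ∈ NS e G U)).card ≤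
        ((Bx H).filter (fun c => (fun j => (c j : ℝ)) ∈ NS e G Y)).card := by
      rw [← card_union_of_disjoint]
      · refine card_le_card fun c hc => ?_
        rcases mem_union.1 hc with h | h
        · rw [hE₁] at h
          exact mem_filter.2 ⟨(mem_filter.1 h).1, (mem_filter.1 h).2.1⟩
        · exact mem_filter.2 ⟨(mem_filter.1 h).1, fun z hz => (mem_filter.1 h).2 z (hYU z hz)⟩
      · rw [disjoint_left]
        intro c hc hc'
        rw [hE₁] at hc
        exact (mem_filter.1 hc).2.2 (mem_filter.1 hc').2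
    rw [hN]
    show (E₁.card : ℝ) ≤ (((Bx H).filter _).card : ℝ) - (((Bx H).filter _).card : ℝ)
    rw [le_sub_iff_add_le]
    exact_mod_cast h1
  have hE₂c : (E₂.card : ℝ) ≤ η / 2 * ((2 * H + 1 : ℕ) : ℝ) ^ ncI e := by
    by_cases hι : Nonempty ι
    · obtain ⟨k₀⟩ := hι
      have hn : 1 ≤ ncI e := by
        rw [← card_ka]
        exact Fintype.card_pos_iff.2 ⟨⟨k₀, 0⟩⟩
      have h1 : (E₂.card : ℝ) ≤ ∑ q ∈ Y ×ˢ (univ : Finset ι),
          (2 * (δ * H) + 1) * ((2 * H + 1 : ℕ) : ℝ) ^ (ncI e - 1) := by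
        rw [hE₂]
        refine (Nat.cast_le.2 card_biUnion_le).trans ?_
        rw [Nat.cast_sum]
        refine sum_le_sum fun q _ => ?_
        have h2 := card_small (e := e) H q.1 δ hδ0.le q.2
        rw [card_ka] at h2
        rw [hBx]
        exact h2
      refine h1.trans ?_
      rw [sum_const, card_product, card_univ, nsmul_eq_mul]
      have h3 : ((2 * H + 1 : ℕ) : ℝ) ^ ncI e =
          ((2 * H + 1 : ℕ) : ℝ) ^ (ncI e - 1) * ((2 * H + 1 : ℕ) : ℝ) := by
        rw [← pow_succ, Nat.sub_add_cancel hn]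
      rw [h3]
      have h4 : ((Y.card * Fintype.card ι : ℕ) : ℝ) ≤ D := by
        rw [hD]
        push_cast
        linarith
      have h5 : (0 : ℝ) ≤ ((2 * H + 1 : ℕ) : ℝ) ^ (ncI e - 1) := by positivity
      have h6 : ((Y.card * Fintype.card ι : ℕ) : ℝ) * (2 * (δ * H) + 1) ≤
          η / 2 * ((2 * H + 1 : ℕ) : ℝ) := by
        have hH0 : (0 : ℝ) ≤ H := Nat.cast_nonneg _
        have h7 : ((Y.card * Fintype.card ι : ℕ) : ℝ) * (2 * (δ * H) + 1) ≤
            D * (2 * (δ * H) + 1) := mul_le_mul_of_nonneg_right h4 (by positivity)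
        have h8 : D * (2 * (δ * H) + 1) = 2 * (D * δ) * H + D := by ring
        rw [h8, hDδ] at h7
        refine h7.trans ?_
        have h9 : ((2 * H + 1 : ℕ) : ℝ) = 2 * (H : ℝ) + 1 := by push_cast; ring
        have h10 : η / 2 * (2 * (H : ℝ) + 1) = 2 * (η / 4) * H + η / 2 * H + η / 2 := by ring
        rw [h9, h10]
        linarith
      calc ((Y.card * Fintype.card ι : ℕ) : ℝ) *
            ((2 * (δ * H) + 1) * ((2 * H + 1 : ℕ) : ℝ) ^ (ncI e - 1)) =
          (((Y.card * Fintype.card ι : ℕ) : ℝ) * (2 * (δ * H) + 1)) *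
            ((2 * H + 1 : ℕ) : ℝ) ^ (ncI e - 1) := by ring
        _ ≤ (η / 2 * ((2 * H + 1 : ℕ) : ℝ)) * ((2 * H + 1 : ℕ) : ℝ) ^ (ncI e - 1) :=
            mul_le_mul_of_nonneg_right h6 h5
        _ = _ := by ring
    · have h1 : E₂ = ∅ := by
        rw [hE₂]
        have h2 : Y ×ˢ (univ : Finset ι) = ∅ := by
          haveI := not_nonempty_iff.1 hι
          rw [univ_eq_empty, product_empty]
        rw [h2, biUnion_empty]
      rw [h1, card_empty, Nat.cast_zero]
      positivity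
  -- the injection
  have hinj : ((BXI e H).filter (fun c => (∃ z ∈ U, G fun k => fmv (c k) 1 z) ∧
        ¬ ∃ w ∈ Y.image (fun z => (z - ρ z, z + ρ z)), ∃ s : ι → ℤ,
          (∀ k, s k = 1 ∨ s k = -1) ∧ (G fun k => (s k : ℝ)) ∧
          ∀ k, ∀ z : ℝ, w.1 < z → z < w.2 → 0 < (s k : ℝ) * fmv (c k) 1 z)).card ≤
      (E₁ ∪ E₂).card := by
    refine Finset.card_le_card_of_injOn (fun c p => c p.1 p.2) ?_ ?_
    · intro c hc
      obtain ⟨hcB, ⟨z₀, hz₀, hGz₀⟩, hcn⟩ := mem_filter.1 (Finset.mem_coe.1 hc)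
      have hcB' : (fun p : Ka e => c p.1 p.2) ∈ Bx H := by
        rw [hBx]
        refine Fintype.mem_piFinset.2 fun p => ?_
        have h1 := Fintype.mem_piFinset.1 hcB p.1
        exact Fintype.mem_piFinset.1 h1 p.2
      have hvl : ∀ z, vl e (fun p : Ka e => ((c p.1 p.2 : ℤ) : ℝ)) z =
          fun k => fmv (c k) 1 z := fun z => funext fun k => vl_int c z k
      refine Finset.mem_coe.2 (mem_union.2 ?_)
      by_cases h1 : (fun p : Ka e => ((c p.1 p.2 : ℤ) : ℝ)) ∈ NS e G Y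
      · left
        rw [hE₁]
        refine mem_filter.2 ⟨hcB', h1, fun h2 => h2 z₀ hz₀ ?_⟩
        rw [hvl]
        exact hGz₀
      · right
        have h2 : ∃ z ∈ Y, G (vl e (fun p : Ka e => ((c p.1 p.2 : ℤ) : ℝ)) z) := by
          by_contra hcon
          exact h1 fun z hz hGz => hcon ⟨z, hz, hGz⟩
        obtain ⟨z, hz, hGz⟩ := h2
        by_contra h3
        have h4 : ∀ k, δ * H < |vl e (fun p : Ka e => ((c p.1 p.2 : ℤ) : ℝ)) z k| := by
          intro k
          by_contra hcon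
          apply h3
          rw [hE₂]
          exact mem_biUnion.2 ⟨(z, k), mem_product.2 ⟨hz, mem_univ _⟩,
            mem_filter.2 ⟨hcB', not_lt.1 hcon⟩⟩
        apply hcn
        obtain ⟨hρ0, hρU, hρs⟩ := hρ z hz
        rw [hvl] at hGz
        obtain ⟨s, hs⟩ : ∃ s : ι → ℤ, s = fun k => if 0 < (fmv (c k) 1 z : ℝ) then 1 else -1 :=
          ⟨_, rfl⟩
        have hs1 : ∀ k, s k = 1 ∨ s k = -1 := by
          intro k
          rw [hs]
          by_cases h : 0 < (fmv (c k) 1 z : ℝ)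
          · exact Or.inl (if_pos h)
          · exact Or.inr (if_neg h)
        have hs2 : ∀ k, 0 < (s k : ℝ) * fmv (c k) 1 z := by
          intro k
          have hne := hG.ne _ hGz k
          by_cases h : 0 < (fmv (c k) 1 z : ℝ)
          · have h5 : s k = 1 := by rw [hs]; exact if_pos h
            rw [h5]
            push_cast
            linarith
          · have h5 : s k = -1 := by rw [hs]; exact if_neg h
            rw [h5]
            push_cast
            have h6 := lt_of_le_of_ne (not_lt.1 h) hne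
            linarith
        refine ⟨(z - ρ z, z + ρ z), mem_image_of_mem _ hz, s, hs1, ?_, ?_⟩
        · refine hG.sg _ _ hGz fun k => ?_
          rw [mul_comm]
          exact hs2 k
        · intro k z' hz1 hz2
          have hz' : z' ∈ Set.Icc (z - ρ z) (z + ρ z) := ⟨hz1.le, hz2.le⟩
          have h5 := hρs z' hz' k
          have h6 := h4 k
          rw [hvl] at h6
          have h7 : |(fmv (c k) 1 z' : ℝ) - fmv (c k) 1 z| ≤ δ * H := by
            rw [← vl_int c z' k, ← vl_int c z k]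
            unfold vl
            rw [← sum_sub_distrib]
            refine (abs_sum_le_sum_abs _ _).trans ?_
            have h8 : ∀ j : Fin (e k + 2), |((c k j : ℤ) : ℝ) * z' ^ (j : ℕ) -
                ((c k j : ℤ) : ℝ) * z ^ (j : ℕ)| ≤ H * |z' ^ (j : ℕ) - z ^ (j : ℕ)| := by
              intro j
              rw [← mul_sub, abs_mul]
              refine mul_le_mul_of_nonneg_right ?_ (abs_nonneg _)
              have h9 := Fintype.mem_piFinset.1 (Fintype.mem_piFinset.1 hcB k) j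
              rw [mem_Icc] at h9
              rw [abs_le]
              constructor
              · exact_mod_cast h9.1
              · exact_mod_cast h9.2
            refine (sum_le_sum fun j _ => h8 j).trans ?_
            rw [← mul_sum, mul_comm]
            exact mul_le_mul_of_nonneg_right h5 (Nat.cast_nonneg _)
          have h8 : |(s k : ℝ)| = 1 := by
            rcases hs1 k with h | h <;> rw [h] <;> norm_num
          have h9 : (s k : ℝ) * fmv (c k) 1 z = |(fmv (c k) 1 z : ℝ)| := by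
            rw [← abs_of_pos (hs2 k), abs_mul, h8, one_mul]
          have h10 : |(s k : ℝ) * ((fmv (c k) 1 z' : ℝ) - fmv (c k) 1 z)| ≤ δ * H := by
            rw [abs_mul, h8, one_mul]
            exact h7
          have h11 := (abs_le.1 h10).1
          rw [mul_sub, h9] at h11
          linarith
    · intro c _ c' _ hcc
      funext k j
      exact congrFun hcc (⟨k, j⟩ : Ka e)
  have h1 : (((BXI e H).filter (fun c => (∃ z ∈ U, G fun k => fmv (c k) 1 z) ∧
        ¬ ∃ w ∈ Y.image (fun z => (z - ρ z, z + ρ z)), ∃ s : ι → ℤ,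
          (∀ k, s k = 1 ∨ s k = -1) ∧ (G fun k => (s k : ℝ)) ∧
          ∀ k, ∀ z : ℝ, w.1 < z → z < w.2 → 0 < (s k : ℝ) * fmv (c k) 1 z)).card : ℝ) ≤
      (E₁.card : ℝ) + E₂.card := by
    exact_mod_cast hinj.trans (card_union_le _ _)
  refine h1.trans ?_
  have h2 : η / 2 * ((2 * H + 1 : ℕ) : ℝ) ^ ncI e + η / 2 * ((2 * H + 1 : ℕ) : ℝ) ^ ncI e =
      η * ((2 * H + 1 : ℕ) : ℝ) ^ ncI e := by ring
  linarith

end gen

/-- the sign patterns for quadric surfaces -/
def G4 (r : ℕ) (v : Fin r × Fin 4 → ℝ) : Prop :=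
  (∀ k, v k ≠ 0) ∧ ∀ i, ¬ (∀ l, 0 < v (i, l)) ∧ ¬ (∀ l, v (i, l) < 0)

theorem pat4 (r : ℕ) : Pat (G4 r) := by
  constructor
  · exact fun v h => h.1
  · intro v w h hvw
    refine ⟨fun k => right_ne_zero_of_mul (hvw k).ne', fun i => ⟨fun h1 => ?_, fun h1 => ?_⟩⟩
    · exact (h.2 i).1 fun l => pos_of_mul_pos_left (hvw (i, l)) (h1 l).le
    · refine (h.2 i).2 fun l => ?_
      by_contra hcon
      have h2 := hvw (i, l)
      have h3 := mul_nonpos_of_nonneg_of_nonpos (not_lt.1 hcon) (h1 l).le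
      linarith

theorem real4_ (h : S_ORTHO) : S_REAL4 := by
  classical
  intro r e U hU η hη
  obtain ⟨Z, H₀, hZ, hH⟩ := gen h e (G4 r) (pat4 r) U hU η hη
  refine ⟨Z, H₀, hZ, fun H hH' => le_trans (Nat.cast_le.2 (card_le_card ?_)) (hH H hH')⟩
  intro c hc
  obtain ⟨h1, ⟨z, hz, h2⟩, h3⟩ := mem_filter.1 hc
  refine mem_filter.2 ⟨h1, ⟨z, hz, h2.1, fun i => ⟨fun h4 => ?_, fun h4 => ?_⟩⟩, ?_⟩
  · obtain ⟨u, hu, hs⟩ := h2.2 i
    obtain ⟨l₀, hl₀⟩ := Function.ne_iff.1 hu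
    have h5 : 0 < ∑ l, (fmv (c (i, l)) 1 z : ℝ) * u l ^ 2 := by
      refine Finset.sum_pos' (fun l _ => mul_nonneg (h4 l).le (sq_nonneg _)) ⟨l₀, mem_univ _, ?_⟩
      exact mul_pos (h4 l₀) (pow_pos (lt_of_le_of_ne (abs_nonneg _) (Ne.symm (abs_ne_zero.2 hl₀))) 2
        |>.trans_eq (sq_abs _))
    exact h5.ne' hs
  · obtain ⟨u, hu, hs⟩ := h2.2 i
    obtain ⟨l₀, hl₀⟩ := Function.ne_iff.1 hu
    have h5 : ∑ l, (fmv (c (i, l)) 1 z : ℝ) * u l ^ 2 < 0 := by
      refine Finset.sum_neg' (fun l _ => mul_nonpos_of_nonpos_of_nonneg (h4 l).le (sq_nonneg _))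
        ⟨l₀, mem_univ _, ?_⟩
      exact mul_neg_of_neg_of_pos (h4 l₀)
        (pow_pos (lt_of_le_of_ne (abs_nonneg _) (Ne.symm (abs_ne_zero.2 hl₀))) 2
        |>.trans_eq (sq_abs _))
    exact h5.ne hs
  · rintro ⟨w, hw, s, hs1, hs2, hs3⟩
    refine h3 ⟨w, hw, s, ⟨hs1, fun i => ⟨fun h4 => ?_, fun h4 => ?_⟩⟩, hs3⟩
    · refine (hs2.2 i).1 fun l => ?_
      show (0 : ℝ) < (s (i, l) : ℝ)
      rw [h4 l]
      norm_num
    · refine (hs2.2 i).2 fun l => ?_
      show (s (i, l) : ℝ) < 0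
      rw [h4 l]
      norm_num

end Pool.Agent.N42.DQ
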